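import Pool.Agent.R539.SD.Stm

set_option autoImplicit false

namespace Pool.Agent.R361.SD

open Pool.Agent.NPC Pool.Agent.R544 Pool.Agent.R539.SD

theorem poly_conArcs {α : Type} [TEnc α] (n r : ℕ) {q : α → ℕ} {u w : α → Vx}
    (hq : NPC.Poly q) (hu : NPC.Poly u) (hw : NPC.Poly w) :
    NPC.Poly (fun x => conArcs n r (q x) (u x) (w x)) := by
  unfold conArcs lev
  refine NPC.Poly.append (by fun_prop) (NPC.Poly.append ?_ ?_)
  · exact NPC.Poly.map (l := fun _ : α => List.range r)
      (F := fun x s => (((2, q x, s), (2, q x, s + 1)) : Vx × Vx)) (NPC.Poly.const _) (by fun_prop)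
  · exact NPC.Poly.flatMap (l := fun _ : α => List.range r)
      (F := fun x s => ([((4, s + 1, r + 1), (2, q x, s + 1)),
        ((2, q x, s + 1), (4, s + 1, 0))] : List (Vx × Vx))) (NPC.Poly.const _) (by fun_prop)

theorem spoly : SPOLY := by
  intro n r
  unfold lowDg
  refine NPC.Poly.append (NPC.Poly.const _) ?_
  have hn : UPoly (fun φ : N3 => φ.length) := UPoly.length NPC.Poly.id
  refine NPC.Poly.flatMap (l := fun φ : N3 => List.range φ.length)
    (F := fun φ j => clauseArcs n r j (tr φ j).1 (tr φ j).2.1 (tr φ j).2.2) hn.range ?_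
  unfold clauseArcs
  refine NPC.Poly.append (by fun_prop) ?_
  refine NPC.Poly.append (poly_conArcs n r (by fun_prop) (by fun_prop) (by fun_prop)) ?_
  refine NPC.Poly.append (poly_conArcs n r (by fun_prop) (by fun_prop) (by fun_prop)) ?_
  exact NPC.Poly.append (poly_conArcs n r (by fun_prop) (by fun_prop) (by fun_prop))
    (poly_conArcs n r (by fun_prop) (by fun_prop) (by fun_prop))

theorem sloop : SLOOP := by
  intro n r φ e he
  obtain ⟨⟨a, b, c⟩, ⟨a', b', c'⟩⟩ := e
  simp only [lowDg, constArcs, hubArcs, pairArcs, linkArcs, clauseArcs, conArcs, lev,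
    List.mem_append, List.mem_flatMap, List.mem_map, List.mem_cons, List.not_mem_nil, or_false,
    Prod.mk.injEq, List.mem_range] at he
  simp only [ne_eq, Prod.mk.injEq, not_and]
  intro h1 h2 h3
  subst h1 h2 h3
  rcases he with he | he
  · rcases he with (he | he) | he
    · obtain ⟨_, _, _, _, h⟩ := he
      omega
    · obtain ⟨_, _, he⟩ := he
      rcases he with he | he
      · obtain ⟨_, _, h⟩ := he
        omega
      · obtain ⟨_, _, he⟩ := he
        omega
    · obtain ⟨_, _, he⟩ := he
      omega
  · obtain ⟨j, hj, he⟩ := he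
    rcases he with he | he
    · omega
    · rcases he with he | he | he | he
      all_goals
        rcases he with he | he | he
        · omega
        · obtain ⟨_, _, h⟩ := he
          omega
        · obtain ⟨_, _, he⟩ := he
          omega

end Pool.Agent.R361.SD
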